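import Mathlib

open Polynomial

namespace Pool.Agent.Results.MP_cd3d06_an.ChebyshevBound

/-- The number of zeros of `p + conj q` in the plane. -/
noncomputable def zeroCount (p q : ℂ[X]) : ℕ∞ :=
  {z : ℂ | p.eval z + (starRingEnd ℂ) (q.eval z) = 0}.encard

/-- The number `N(n, m)`: the supremum of the number of zeros of `p + conj q`, over all
polynomials `p` of degree `n` and `q` of degree `m`. -/
noncomputable def N (n m : ℕ) : ℕ∞ :=
  ⨆ (p : ℂ[X]) (q : ℂ[X]) (_ : p.natDegree = n) (_ : q.natDegree = m), zeroCount p q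

/-! ### Counting zeros by sign changes -/

lemma exists_zeros (Ψ : ℝ → ℝ) (hΨ : Continuous Ψ) (c : ℕ → ℝ) :
    ∀ M : ℕ, (∀ i < M, c i < c (i + 1)) → (∀ i ≤ M, 0 < (-1 : ℝ) ^ i * Ψ (c i)) →
      c 0 ≤ c M ∧ ∃ s : Finset ℝ, s.card = M ∧ ∀ x ∈ s, Ψ x = 0 ∧ c 0 < x ∧ x < c M := by
  intro M
  induction M with
  | zero => intro _ _; exact ⟨le_rfl, ∅, by simp, by simp⟩
  | succ M ih =>
    intro hc hs
    obtain ⟨h0, s, hcard, hsx⟩ := ih (fun i hi => hc i (by omega)) (fun i hi => hs i (by omega))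
    have hlt := hc M (by omega)
    refine ⟨by linarith, ?_⟩
    have h1 := hs M (by omega)
    have h2 := hs (M + 1) le_rfl
    obtain ⟨y, hy, hy0⟩ : ∃ y ∈ Set.Ioo (c M) (c (M + 1)), Ψ y = 0 := by
      rcases neg_one_pow_eq_or ℝ M with h | h
      · rw [h] at h1
        rw [pow_succ, h] at h2
        have : (0 : ℝ) ∈ Set.Ioo (Ψ (c (M + 1))) (Ψ (c M)) := ⟨by linarith, by linarith⟩
        obtain ⟨y, hy, hy0⟩ := intermediate_value_Ioo' hlt.le hΨ.continuousOn this
        exact ⟨y, hy, hy0⟩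
      · rw [h] at h1
        rw [pow_succ, h] at h2
        have : (0 : ℝ) ∈ Set.Ioo (Ψ (c M)) (Ψ (c (M + 1))) := ⟨by linarith, by linarith⟩
        obtain ⟨y, hy, hy0⟩ := intermediate_value_Ioo hlt.le hΨ.continuousOn this
        exact ⟨y, hy, hy0⟩
    refine ⟨insert y s, ?_, ?_⟩
    · rw [Finset.card_insert_of_notMem, hcard]
      intro hys
      exact absurd (hsx y hys).2.2 (not_lt.2 hy.1.le)
    · intro x hx
      rcases Finset.mem_insert.1 hx with rfl | hx
      · exact ⟨hy0, by linarith [hy.1], hy.2⟩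
      · obtain ⟨h3, h4, h5⟩ := hsx x hx
        exact ⟨h3, h4, by linarith⟩

/-- If `S` is odd, `V` is even and positive, `S` alternates in sign at `J` positive points where
it dominates `V`, and `V` dominates `S` at a point farther away, then `S + s V` has at least `2 J`
nonzero zeros, for each sign `s`. -/
lemma count_zeros (S V : ℝ → ℝ) (hS : Continuous S) (hV : Continuous V)
    (hodd : ∀ b, S (-b) = - S b) (heven : ∀ b, V (-b) = V b) (hpos : ∀ b, 0 < V b)
    (J : ℕ) (hJ : 1 ≤ J) (β : ℕ → ℝ) (hβ0 : ∀ j < J, 0 < β j)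
    (hβ : ∀ j, j + 1 < J → β j < β (j + 1))
    (hsgn : ∀ j < J, V (β j) < (-1 : ℝ) ^ j * S (β j)) (B : ℝ) (hB : β (J - 1) < B)
    (hBV : |S B| < V B) (s : ℝ) (hs : s = 1 ∨ s = -1) :
    ∃ F : Finset ℝ, F.card = 2 * J ∧ ∀ x ∈ F, x ≠ 0 ∧ S x + s * V x = 0 := by
  have hS0 : S 0 = 0 := by
    have := hodd 0
    rw [neg_zero] at this
    linarith
  set δ : ℕ → ℝ := fun i => if i = 0 then 0 else if i ≤ J then β (i - 1) else B with hδ
  have hδ0 : δ 0 = 0 := by simp [hδ]
  have hδ1 : ∀ i < J, δ (i + 1) = β i := by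
    intro i hi
    simp only [hδ]
    rw [if_neg (by omega), if_pos (by omega)]
    simp
  have hδJ : δ (J + 1) = B := by
    simp only [hδ]
    rw [if_neg (by omega), if_neg (by omega)]
  have hinc : ∀ i < J + 1, δ i < δ (i + 1) := by
    intro i hi
    rcases Nat.eq_zero_or_pos i with rfl | hi0
    · rw [hδ0, hδ1 0 (by omega)]
      exact hβ0 0 (by omega)
    · obtain ⟨l, rfl⟩ : ∃ l, i = l + 1 := ⟨i - 1, by omega⟩
      rcases Nat.lt_or_ge (l + 1) J with h | h
      · rw [hδ1 l (by omega), hδ1 (l + 1) h]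
        exact hβ l h
      · have : l + 1 = J := by omega
        rw [hδ1 l (by omega), this, hδJ]
        have : l = J - 1 := by omega
        rw [this]
        exact hB
  have hminus : ∀ i ≤ J, 0 < (-1 : ℝ) ^ i * (V (δ i) - S (δ i)) := by
    intro i hi
    rcases Nat.eq_zero_or_pos i with rfl | hi0
    · rw [hδ0, hS0]
      simpa using hpos 0
    · obtain ⟨l, rfl⟩ : ∃ l, i = l + 1 := ⟨i - 1, by omega⟩
      rw [hδ1 l (by omega)]
      have h1 := hsgn l (by omega)
      have h2 := hpos (β l)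
      rw [pow_succ]
      rcases neg_one_pow_eq_or ℝ l with h | h
      · rw [h] at h1 ⊢; linarith
      · rw [h] at h1 ⊢; linarith
  have hplus : ∀ i < J, 0 < (-1 : ℝ) ^ i * (S (δ (i + 1)) + V (δ (i + 1))) := by
    intro l hl
    rw [hδ1 l hl]
    have h1 := hsgn l (by omega)
    have h2 := hpos (β l)
    rcases neg_one_pow_eq_or ℝ l with h | h
    · rw [h] at h1 ⊢; linarith
    · rw [h] at h1 ⊢; linarith
  have hBB := abs_lt.1 hBV
  -- zeros of `V - S` and of `S + V` on the positive axis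
  obtain ⟨F1, F2, hcard, hF1, hF2⟩ : ∃ F1 F2 : Finset ℝ, F1.card + F2.card = 2 * J ∧
      (∀ x ∈ F1, 0 < x ∧ V x - S x = 0) ∧ (∀ x ∈ F2, 0 < x ∧ S x + V x = 0) := by
    rcases Nat.even_or_odd J with hJe | hJo
    · obtain ⟨-, F1, hc1, h1⟩ := exists_zeros (fun x => V x - S x) (hV.sub hS) δ J
        (fun i hi => hinc i (by omega)) hminus
      obtain ⟨-, F2, hc2, h2⟩ := exists_zeros (fun x => S x + V x) (hS.add hV)
        (fun i => δ (i + 1)) J (fun i hi => hinc (i + 1) (by omega)) (by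
          intro i hi
          rcases Nat.lt_or_ge i J with h | h
          · exact hplus i h
          · have : i = J := by omega
            subst this
            rw [hδJ, hJe.neg_one_pow]
            linarith [hBB.1])
      refine ⟨F1, F2, by omega, fun x hx => ⟨?_, (h1 x hx).1⟩, fun x hx => ⟨?_, (h2 x hx).1⟩⟩
      · have := (h1 x hx).2.1
        rwa [hδ0] at this
      · have := (h2 x hx).2.1
        rw [hδ1 0 (by omega)] at this
        linarith [hβ0 0 (by omega)]
    · obtain ⟨-, F1, hc1, h1⟩ := exists_zeros (fun x => V x - S x) (hV.sub hS) δ (J + 1)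
        (fun i hi => hinc i (by omega)) (by
          intro i hi
          rcases Nat.lt_or_ge i (J + 1) with h | h
          · exact hminus i (by omega)
          · have : i = J + 1 := by omega
            subst this
            rw [hδJ, pow_succ, hJo.neg_one_pow]
            linarith [hBB.2])
      obtain ⟨-, F2, hc2, h2⟩ := exists_zeros (fun x => S x + V x) (hS.add hV)
        (fun i => δ (i + 1)) (J - 1) (fun i hi => hinc (i + 1) (by omega))
        (fun i hi => hplus i (by omega))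
      refine ⟨F1, F2, by omega, fun x hx => ⟨?_, (h1 x hx).1⟩, fun x hx => ⟨?_, (h2 x hx).1⟩⟩
      · have := (h1 x hx).2.1
        rwa [hδ0] at this
      · have := (h2 x hx).2.1
        rw [hδ1 0 (by omega)] at this
        linarith [hβ0 0 (by omega)]
  have hneg : ∀ F : Finset ℝ, (F.image (fun x => -x)).card = F.card := fun F =>
    Finset.card_image_of_injective _ neg_injective
  rcases hs with rfl | rfl
  · refine ⟨F2 ∪ F1.image (fun x => -x), ?_, ?_⟩
    · rw [Finset.card_union_of_disjoint, hneg]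
      · omega
      · rw [Finset.disjoint_left]
        intro x hx hx'
        obtain ⟨y, hy, rfl⟩ := Finset.mem_image.1 hx'
        linarith [(hF2 _ hx).1, (hF1 _ hy).1]
    · intro x hx
      rcases Finset.mem_union.1 hx with hx | hx
      · exact ⟨(hF2 x hx).1.ne', by linarith [(hF2 x hx).2]⟩
      · obtain ⟨y, hy, rfl⟩ := Finset.mem_image.1 hx
        have := (hF1 _ hy)
        refine ⟨by linarith [this.1] |> fun h : -y < 0 => h.ne, ?_⟩
        rw [hodd, heven]
        linarith [this.2]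
  · refine ⟨F1 ∪ F2.image (fun x => -x), ?_, ?_⟩
    · rw [Finset.card_union_of_disjoint, hneg]
      · omega
      · rw [Finset.disjoint_left]
        intro x hx hx'
        obtain ⟨y, hy, rfl⟩ := Finset.mem_image.1 hx'
        linarith [(hF1 _ hx).1, (hF2 _ hy).1]
    · intro x hx
      rcases Finset.mem_union.1 hx with hx | hx
      · exact ⟨(hF1 x hx).1.ne', by linarith [(hF1 x hx).2]⟩
      · obtain ⟨y, hy, rfl⟩ := Finset.mem_image.1 hx
        have := (hF2 _ hy)
        refine ⟨by linarith [this.1] |> fun h : -y < 0 => h.ne, ?_⟩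
        rw [hodd, heven]
        linarith [this.2]


/-! ### The hyperbola branches -/

/-- The point `2 + cos (a - i b)`. -/
noncomputable def pt (a b : ℝ) : ℂ := 2 + Complex.cos ((a : ℂ) - b * Complex.I)

lemma pt_eq (a b : ℝ) : pt a b = ((2 + Real.cos a * Real.cosh b : ℝ) : ℂ) +
    ((Real.sin a * Real.sinh b : ℝ) : ℂ) * Complex.I := by
  unfold pt
  rw [Complex.cos_sub, Complex.cos_mul_I, Complex.sin_mul_I]
  push_cast
  ring

lemma pt_re (a b : ℝ) : (pt a b).re = 2 + Real.cos a * Real.cosh b := by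
  rw [pt_eq, Complex.add_re, Complex.ofReal_re, Complex.re_ofReal_mul, Complex.I_re, mul_zero,
    add_zero]

lemma pt_im (a b : ℝ) : (pt a b).im = Real.sin a * Real.sinh b := by
  rw [pt_eq, Complex.add_im, Complex.ofReal_im, Complex.im_ofReal_mul, Complex.I_im, mul_one,
    zero_add]

lemma pt_neg (a b : ℝ) : pt a (-b) = (starRingEnd ℂ) (pt a b) := by
  apply Complex.ext
  · rw [Complex.conj_re, pt_re, pt_re, Real.cosh_neg]
  · rw [Complex.conj_im, pt_im, pt_im, Real.sinh_neg]; ring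

lemma continuous_pt (a : ℝ) : Continuous (pt a) := by
  unfold pt
  fun_prop

lemma pt_inj {a a' b b' : ℝ} (ha : 0 < a) (ha' : a < Real.pi) (hb : 0 < a') (hb' : a' < Real.pi)
    (h : pt a b = pt a' b') : a = a' ∧ b = b' := by
  unfold pt at h
  have h1 := add_left_cancel h
  rw [Complex.cos_eq_cos_iff] at h1
  obtain ⟨k, hk | hk⟩ := h1
  · have hre := congrArg Complex.re hk
    have him := congrArg Complex.im hk
    simp at hre him
    have hk0 : k = 0 := by
      have h2 : (k : ℝ) * (2 * Real.pi) < 1 * (2 * Real.pi) := by nlinarith [Real.pi_pos]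
      have h3 : (-1 : ℝ) * (2 * Real.pi) < (k : ℝ) * (2 * Real.pi) := by nlinarith [Real.pi_pos]
      have h4 := lt_of_mul_lt_mul_right h2 (by positivity)
      have h5 := lt_of_mul_lt_mul_right h3 (by positivity)
      have h6 : k < 1 := by exact_mod_cast h4
      have h7 : -1 < k := by exact_mod_cast h5
      omega
    subst hk0
    simp at hre him
    exact ⟨by linarith, by linarith⟩
  · exfalso
    have hre := congrArg Complex.re hk
    simp at hre
    have h2 : (k : ℝ) * (2 * Real.pi) < 1 * (2 * Real.pi) := by nlinarith [Real.pi_pos]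
    have h3 : (0 : ℝ) * (2 * Real.pi) < (k : ℝ) * (2 * Real.pi) := by nlinarith [Real.pi_pos]
    have h4 := lt_of_mul_lt_mul_right h2 (by positivity)
    have h5 := lt_of_mul_lt_mul_right h3 (by positivity)
    have h6 : k < 1 := by exact_mod_cast h4
    have h7 : 0 < k := by exact_mod_cast h5
    omega

/-- The function whose zeros are the points of the branch on the ray of direction `α`. -/
noncomputable def g (a α b : ℝ) : ℝ :=
  Real.sin a * Real.sinh b * Real.cos α - Real.sin α * (2 + Real.cos a * Real.cosh b)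

lemma continuous_g (a α : ℝ) : Continuous (g a α) := by
  unfold g
  fun_prop

lemma g_large (a α : ℝ) (h1 : 0 < α) (h2 : α < a) (h3 : a < Real.pi) (b₀ : ℝ) :
    ∃ b, b₀ < b ∧ 0 < g a α b := by
  have hs : 0 < Real.sin (a - α) := Real.sin_pos_of_pos_of_lt_pi (by linarith) (by linarith)
  set b := max (|b₀| + 1) (6 / Real.sin (a - α)) with hb
  have hb1 : |b₀| + 1 ≤ b := le_max_left _ _
  have hb2 : 6 / Real.sin (a - α) ≤ b := le_max_right _ _
  have hb0 : 0 < b := by linarith [abs_nonneg b₀]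
  refine ⟨b, by linarith [le_abs_self b₀], ?_⟩
  have hg : g a α b = Real.cosh b * Real.sin (a - α) - Real.exp (-b) * (Real.sin a * Real.cos α)
      - 2 * Real.sin α := by
    unfold g
    rw [Real.sin_sub, Real.sinh_eq, Real.cosh_eq]
    ring
  have hcosh : b / 2 < Real.cosh b := by
    rw [Real.cosh_eq]
    have := Real.add_one_le_exp b
    have := Real.exp_pos (-b)
    linarith
  have h6 : 6 ≤ b * Real.sin (a - α) := by
    rwa [div_le_iff₀ hs] at hb2
  have h7 : 3 < Real.cosh b * Real.sin (a - α) := by nlinarith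
  have h8 : Real.exp (-b) ≤ 1 := Real.exp_le_one_iff.2 (by linarith)
  have h9 : Real.sin a * Real.cos α ≤ 1 := by
    have := Real.sin_le_one a
    have := Real.sin_nonneg_of_nonneg_of_le_pi (by linarith : 0 ≤ a) h3.le
    nlinarith [Real.cos_le_one α]
  have h10 : Real.exp (-b) * (Real.sin a * Real.cos α) ≤ 1 := by
    have := Real.exp_pos (-b)
    nlinarith
  rw [hg]
  linarith [Real.sin_le_one α]

lemma g_zero (a α b : ℝ) (h1 : 0 < α) (h2 : α < a) (h3 : a < Real.pi) (hb : 0 < b)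
    (hg : g a α b = 0) : ∃ r : ℝ, 0 < r ∧ pt a b = r * Complex.exp (α * Complex.I) := by
  have hsα : 0 < Real.sin α := Real.sin_pos_of_pos_of_lt_pi h1 (by linarith)
  have hsa : 0 < Real.sin a := Real.sin_pos_of_pos_of_lt_pi (by linarith) h3
  have hsb : 0 < Real.sinh b := Real.sinh_pos_iff.2 hb
  refine ⟨Real.sin a * Real.sinh b / Real.sin α, by positivity, ?_⟩
  unfold g at hg
  apply Complex.ext
  · rw [pt_re, Complex.re_ofReal_mul, Complex.exp_ofReal_mul_I_re]
    field_simp
    linarith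
  · rw [pt_im, Complex.im_ofReal_mul, Complex.exp_ofReal_mul_I_im]
    field_simp

lemma g_neg (a α α' b r : ℝ) (h1 : α < α') (h2 : α' - α < Real.pi) (hr : 0 < r)
    (h : pt a b = r * Complex.exp (α * Complex.I)) : g a α' b < 0 := by
  have hre := congrArg Complex.re h
  have him := congrArg Complex.im h
  rw [pt_re, Complex.re_ofReal_mul, Complex.exp_ofReal_mul_I_re] at hre
  rw [pt_im, Complex.im_ofReal_mul, Complex.exp_ofReal_mul_I_im] at him
  have hs : 0 < Real.sin (α' - α) := Real.sin_pos_of_pos_of_lt_pi (by linarith) h2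
  unfold g
  rw [hre, him]
  have : r * Real.sin α * Real.cos α' - Real.sin α' * (r * Real.cos α) =
      - (r * Real.sin (α' - α)) := by
    rw [Real.sin_sub]; ring
  rw [this]
  have := mul_pos hr hs
  linarith

lemma next_point (a α b₀ : ℝ) (h1 : 0 < α) (h2 : α < a) (h3 : a < Real.pi) (hb₀ : 0 ≤ b₀)
    (hneg : g a α b₀ < 0) :
    ∃ b, b₀ < b ∧ ∃ r : ℝ, 0 < r ∧ pt a b = r * Complex.exp (α * Complex.I) := by
  obtain ⟨b₁, hb₁, hpos⟩ := g_large a α h1 h2 h3 b₀
  have : (0 : ℝ) ∈ Set.Ioo (g a α b₀) (g a α b₁) := ⟨hneg, hpos⟩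
  obtain ⟨b, hb, hb0⟩ := intermediate_value_Ioo hb₁.le (continuous_g a α).continuousOn this
  exact ⟨b, hb.1, g_zero a α b h1 h2 h3 (by linarith [hb.1]) hb0⟩

lemma exists_points (a : ℝ) (ha' : a < Real.pi) (α : ℕ → ℝ) : ∀ J : ℕ,
    (∀ j < J, 0 < α j ∧ α j < a) → (∀ j, j + 1 < J → α j < α (j + 1)) →
    ∃ β : ℕ → ℝ, (∀ j < J, 0 < β j ∧ ∃ r : ℝ, 0 < r ∧
      pt a (β j) = r * Complex.exp (α j * Complex.I)) ∧ ∀ j, j + 1 < J → β j < β (j + 1) := by
  intro J
  induction J with
  | zero => intro _ _; exact ⟨fun _ => 0, by simp, by simp⟩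
  | succ J ih =>
    intro hα hinc
    obtain ⟨β, hβ, hβi⟩ := ih (fun j hj => hα j (by omega)) (fun j hj => hinc j (by omega))
    obtain ⟨h1, h2⟩ := hα J (by omega)
    obtain ⟨b₀, hb₀, hneg, hlast⟩ : ∃ b₀ : ℝ, 0 ≤ b₀ ∧ g a (α J) b₀ < 0 ∧
        ∀ j, j + 1 = J → β j = b₀ := by
      rcases Nat.eq_zero_or_pos J with rfl | hJ
      · refine ⟨0, le_rfl, ?_, by omega⟩
        unfold g
        rw [Real.sinh_zero, Real.cosh_zero]
        have : 0 < Real.sin (α 0) := Real.sin_pos_of_pos_of_lt_pi h1 (by linarith)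
        have := Real.neg_one_le_cos a
        nlinarith
      · obtain ⟨l, rfl⟩ : ∃ l, J = l + 1 := ⟨J - 1, by omega⟩
        obtain ⟨h3, r, hr, h4⟩ := hβ l (by omega)
        refine ⟨β l, h3.le, ?_, fun j hj => by rw [show j = l by omega]⟩
        have h5 := hinc l (by omega)
        have h6 := (hα l (by omega)).1
        exact g_neg a (α l) _ _ r h5 (by linarith) hr h4
    obtain ⟨b, hb, hr⟩ := next_point a (α J) b₀ h1 h2 ha' hb₀ hneg
    refine ⟨Function.update β J b, ?_, ?_⟩
    · intro j hj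
      rcases Nat.lt_or_ge j J with h | h
      · rw [Function.update_of_ne (by omega)]
        exact hβ j h
      · have : j = J := by omega
        subst this
        rw [Function.update_self]
        exact ⟨by linarith, hr⟩
    · intro j hj
      rcases Nat.lt_or_ge (j + 1) J with h | h
      · rw [Function.update_of_ne (by omega), Function.update_of_ne (by omega)]
        exact hβi j h
      · have : j + 1 = J := by omega
        rw [Function.update_of_ne (by omega), this, Function.update_self, hlast j this]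
        exact hb

/-- The imaginary part of the `m`-th power on the branch. -/
noncomputable def S (m : ℕ) (a b : ℝ) : ℝ := 2 * ((pt a b) ^ m).im

lemma S_neg (m : ℕ) (a b : ℝ) : S m a (-b) = - S m a b := by
  unfold S
  rw [pt_neg, ← map_pow, Complex.conj_im]
  ring

lemma continuous_S (m : ℕ) (a : ℝ) : Continuous (S m a) := by
  unfold S
  exact continuous_const.mul (Complex.continuous_im.comp ((continuous_pt a).pow m))

lemma S_sign (m : ℕ) (a b r α : ℝ)
    (h : pt a b = r * Complex.exp (α * Complex.I)) : S m a b = 2 * (r ^ m * Real.sin (m * α)) := by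
  unfold S
  rw [h, mul_pow, ← Complex.exp_nat_mul, ← mul_assoc, ← Complex.ofReal_pow]
  rw [show ((m : ℂ) * (α : ℂ)) = (((m : ℝ) * α : ℝ) : ℂ) by push_cast; ring]
  rw [Complex.im_ofReal_mul, Complex.exp_ofReal_mul_I_im]

/-- On the branch of parameter `a = k π / n`, the imaginary part of the `m`-th power takes
alternating signs at `J` positive points, as soon as `(J - 1) n < m k`. -/
lemma exists_test_points (m n k J : ℕ) (hm : 1 ≤ m) (hk : 1 ≤ k) (hkn : k < n)
    (hJ : ∀ j < J, j * n < m * k) :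
    ∃ β : ℕ → ℝ, (∀ j < J, 0 < β j ∧ 0 < (-1 : ℝ) ^ j * S m (Real.pi * k / n) (β j)) ∧
      ∀ j, j + 1 < J → β j < β (j + 1) := by
  have hn : (0 : ℝ) < n := by exact_mod_cast (by omega : 0 < n)
  have hm' : (0 : ℝ) < m := by exact_mod_cast (by omega : 0 < m)
  have hk' : (0 : ℝ) < k := by exact_mod_cast (by omega : 0 < k)
  have hkn' : (k : ℝ) < n := by exact_mod_cast hkn
  have hn2 : (2 : ℝ) ≤ n := by exact_mod_cast (by omega : 2 ≤ n)
  have hpi := Real.pi_pos
  set α : ℕ → ℝ := fun j => Real.pi * (j + 1 / (2 * n)) / m with hα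
  have hτ : (0 : ℝ) < 1 / (2 * n) := by positivity
  have hτ1 : (1 : ℝ) / (2 * n) < 1 := by
    rw [div_lt_one (by positivity)]; linarith
  obtain ⟨β, h1, h2⟩ := exists_points (Real.pi * k / n) (by
    rw [div_lt_iff₀ hn]
    exact mul_lt_mul_of_pos_left hkn' hpi) α J (by
    intro j hj
    refine ⟨by positivity, ?_⟩
    have h3 : ((j * n + 1 : ℕ) : ℝ) ≤ ((m * k : ℕ) : ℝ) := by exact_mod_cast hJ j hj
    push_cast at h3
    simp only [hα]
    rw [div_lt_div_iff₀ hm' hn]
    have h4 : ((j : ℝ) + 1 / (2 * n)) * n = j * n + 1 / 2 := by field_simp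
    have h5 : Real.pi * ((j : ℝ) + 1 / (2 * n)) * n = Real.pi * (j * n + 1 / 2) := by
      rw [mul_assoc, h4]
    rw [h5, mul_assoc]
    apply mul_lt_mul_of_pos_left _ hpi
    linarith [mul_comm (k : ℝ) m]) (by
    intro j hj
    simp only [hα]
    push_cast
    apply div_lt_div_of_pos_right _ hm'
    apply mul_lt_mul_of_pos_left _ hpi
    linarith)
  refine ⟨β, fun j hj => ⟨(h1 j hj).1, ?_⟩, h2⟩
  obtain ⟨-, r, hr, hpt⟩ := h1 j hj
  rw [S_sign m _ _ r _ hpt]
  have h6 : (m : ℝ) * α j = Real.pi * (1 / (2 * n)) + j * Real.pi := by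
    simp only [hα]
    field_simp
    ring
  rw [h6, Real.sin_add_nat_mul_pi]
  have h7 : 0 < Real.sin (Real.pi * (1 / (2 * n))) := by
    apply Real.sin_pos_of_pos_of_lt_pi (by positivity)
    nlinarith
  have h8 : (-1 : ℝ) ^ j * (-1 : ℝ) ^ j = 1 := by
    rw [← mul_pow]; norm_num
  have h9 : (-1 : ℝ) ^ j * (2 * (r ^ m * ((-1) ^ j * Real.sin (Real.pi * (1 / (2 * n)))))) =
      2 * (r ^ m * Real.sin (Real.pi * (1 / (2 * n)))) := by
    linear_combination (2 * (r ^ m * Real.sin (Real.pi * (1 / (2 * n))))) * h8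
  rw [h9]
  positivity


lemma exists_far (m n : ℕ) (hmn : m < n) (a ε : ℝ) (hε : 0 < ε) (b₀ : ℝ) :
    ∃ B, b₀ < B ∧ |S m a B| < ε * Real.cosh (n * B) := by
  set B := max (|b₀| + 1) (4 * 4 ^ m / ε) with hB
  have hB1 : |b₀| + 1 ≤ B := le_max_left _ _
  have hB2 : 4 * 4 ^ m / ε ≤ B := le_max_right _ _
  have hB0 : 0 < B := by linarith [abs_nonneg b₀]
  refine ⟨B, by linarith [le_abs_self b₀], ?_⟩
  have hch : Real.cosh B ≤ Real.exp B := by
    rw [Real.cosh_eq]
    have : Real.exp (-B) ≤ Real.exp B := Real.exp_le_exp.2 (by linarith)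
    linarith
  have hsh : |Real.sinh B| ≤ Real.exp B := by
    rw [abs_of_nonneg (Real.sinh_nonneg_iff.2 hB0.le), Real.sinh_eq]
    have := Real.exp_pos (-B)
    have := Real.exp_pos B
    linarith
  have he1 : 1 ≤ Real.exp B := Real.one_le_exp hB0.le
  have hre : |(pt a B).re| ≤ 2 + Real.exp B := by
    rw [pt_re]
    have h1 : |Real.cos a * Real.cosh B| ≤ Real.exp B := by
      rw [abs_mul]
      have h2 := Real.abs_cos_le_one a
      have h3 : |Real.cosh B| = Real.cosh B := abs_of_pos (Real.cosh_pos B)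
      rw [h3]
      have := Real.cosh_pos B
      nlinarith
    have h4 := abs_add_le (2 : ℝ) (Real.cos a * Real.cosh B)
    rw [abs_of_pos (by norm_num : (0 : ℝ) < 2)] at h4
    linarith
  have him : |(pt a B).im| ≤ Real.exp B := by
    rw [pt_im, abs_mul]
    have h2 := Real.abs_sin_le_one a
    have := abs_nonneg (Real.sinh B)
    nlinarith
  have hn : ‖pt a B‖ ≤ 4 * Real.exp B := by
    have := Complex.norm_le_abs_re_add_abs_im (pt a B)
    linarith
  have hS : |S m a B| ≤ 2 * (4 ^ m * Real.exp B ^ m) := by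
    unfold S
    rw [abs_mul, abs_of_pos (by norm_num : (0 : ℝ) < 2)]
    have h1 := Complex.abs_im_le_norm (pt a B ^ m)
    rw [norm_pow] at h1
    have h2 : ‖pt a B‖ ^ m ≤ (4 * Real.exp B) ^ m := pow_le_pow_left₀ (norm_nonneg _) hn m
    rw [mul_pow] at h2
    linarith
  have hc : Real.exp B ^ (m + 1) / 2 ≤ Real.cosh (n * B) := by
    rw [Real.cosh_eq]
    have h1 : Real.exp B ^ (m + 1) ≤ Real.exp B ^ n := pow_le_pow_right₀ he1 hmn
    rw [← Real.exp_nat_mul B n] at h1
    have := Real.exp_pos (-(n * B))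
    linarith
  have h5 : 4 * 4 ^ m < ε * Real.exp B := by
    have h6 : B < Real.exp B := by linarith [Real.add_one_le_exp B]
    rw [div_le_iff₀ hε] at hB2
    nlinarith
  have h7 : 0 < Real.exp B ^ m := by positivity
  calc |S m a B| ≤ 2 * (4 ^ m * Real.exp B ^ m) := hS
    _ < ε * (Real.exp B ^ (m + 1) / 2) := by rw [pow_succ]; nlinarith
    _ ≤ ε * Real.cosh (n * B) := by nlinarith

/-! ### The polynomials -/

lemma ccos_add_nat_mul_pi (x : ℂ) (k : ℕ) :
    Complex.cos (x + k * Real.pi) = (-1) ^ k * Complex.cos x := by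
  induction k with
  | zero => simp
  | succ k ih =>
    rw [show x + ((k + 1 : ℕ) : ℂ) * Real.pi = (x + k * Real.pi) + Real.pi by push_cast; ring,
      Complex.cos_add_pi, ih, pow_succ]
    ring

/-- The analytic part. -/
noncomputable def P (n m : ℕ) (ε : ℝ) : ℂ[X] :=
  X ^ m + C ((ε : ℂ) * Complex.I) * (Chebyshev.T ℂ n).comp (X - C 2)

/-- The antianalytic part. -/
noncomputable def Q (m : ℕ) : ℂ[X] := - X ^ m

lemma natDegree_Q (m : ℕ) : (Q m).natDegree = m := by
  unfold Q; simp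

lemma natDegree_P (n m : ℕ) (hmn : m < n) (ε : ℝ) (hε : 0 < ε) : (P n m ε).natDegree = n := by
  have hc : (ε : ℂ) * Complex.I ≠ 0 := mul_ne_zero (by exact_mod_cast hε.ne') Complex.I_ne_zero
  have h1 : (C ((ε : ℂ) * Complex.I) * (Chebyshev.T ℂ n).comp (X - C 2)).natDegree = n := by
    rw [natDegree_C_mul hc, natDegree_comp, natDegree_X_sub_C, mul_one, Chebyshev.natDegree_T]
    simp
  unfold P
  rw [natDegree_add_eq_right_of_natDegree_lt, h1]
  rw [h1, natDegree_X_pow]
  exact hmn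

lemma eval_cos (n m : ℕ) (ε : ℝ) (w : ℂ) :
    (P n m ε).eval (2 + Complex.cos w) + (starRingEnd ℂ) ((Q m).eval (2 + Complex.cos w)) =
    ((2 * ((2 + Complex.cos w) ^ m).im : ℝ) : ℂ) * Complex.I +
      (ε : ℂ) * Complex.I * Complex.cos (n * w) := by
  unfold P Q
  simp only [eval_add, eval_pow, eval_X, eval_mul, eval_C, eval_comp, eval_sub, eval_neg,
    add_sub_cancel_left, map_neg]
  rw [Chebyshev.T_complex_cos, ← Complex.sub_conj]
  push_cast
  ring

lemma eval_pt (n m k : ℕ) (hn : 0 < n) (ε b : ℝ) :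
    (P n m ε).eval (pt (Real.pi * k / n) b) +
      (starRingEnd ℂ) ((Q m).eval (pt (Real.pi * k / n) b)) =
    ((S m (Real.pi * k / n) b + (-1) ^ k * (ε * Real.cosh (n * b)) : ℝ) : ℂ) * Complex.I := by
  have hn' : (n : ℂ) ≠ 0 := by exact_mod_cast hn.ne'
  have h := eval_cos n m ε (((Real.pi * k / n : ℝ) : ℂ) - b * Complex.I)
  rw [show (2 + Complex.cos (((Real.pi * k / n : ℝ) : ℂ) - b * Complex.I)) =
    pt (Real.pi * k / n) b from rfl] at h
  rw [h]
  have h1 : (n : ℂ) * (((Real.pi * k / n : ℝ) : ℂ) - b * Complex.I) =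
      -(((n : ℂ) * b) * Complex.I) + k * Real.pi := by
    push_cast
    field_simp
    ring
  rw [h1, ccos_add_nat_mul_pi, Complex.cos_neg, Complex.cos_mul_I]
  unfold S
  push_cast
  ring

/-- The real zeros. -/
noncomputable def xr (n i : ℕ) : ℂ := ((2 + Real.cos (Real.pi * (2 * i + 1) / (2 * n)) : ℝ) : ℂ)

lemma eval_xr (n m i : ℕ) (hn : 0 < n) (ε : ℝ) :
    (P n m ε).eval (xr n i) + (starRingEnd ℂ) ((Q m).eval (xr n i)) = 0 := by
  have hn' : (n : ℂ) ≠ 0 := by exact_mod_cast hn.ne'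
  have h := eval_cos n m ε ((Real.pi * (2 * i + 1) / (2 * n) : ℝ) : ℂ)
  have h2 : (2 + Complex.cos ((Real.pi * (2 * i + 1) / (2 * n) : ℝ) : ℂ)) = xr n i := by
    unfold xr; push_cast; rfl
  rw [h2] at h
  rw [h]
  have h3 : ((xr n i) ^ m).im = 0 := by
    unfold xr
    rw [← Complex.ofReal_pow, Complex.ofReal_im]
  have h4 : (n : ℂ) * ((Real.pi * (2 * i + 1) / (2 * n) : ℝ) : ℂ) =
      Real.pi / 2 + i * Real.pi := by
    push_cast
    field_simp
    ring
  rw [h3, h4, ccos_add_nat_mul_pi, Complex.cos_pi_div_two]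
  simp

lemma xr_inj (n : ℕ) (i j : ℕ) (hi : i < n) (hj : j < n) (h : xr n i = xr n j) : i = j := by
  unfold xr at h
  have hn : (0 : ℝ) < n := by exact_mod_cast (by omega : 0 < n)
  have h1 : 2 + Real.cos (Real.pi * (2 * i + 1) / (2 * n)) =
    2 + Real.cos (Real.pi * (2 * j + 1) / (2 * n)) := by exact_mod_cast h
  have hpi := Real.pi_pos
  have hmem : ∀ l : ℕ, l < n → Real.pi * (2 * l + 1) / (2 * n) ∈ Set.Icc 0 Real.pi := by
    intro l hl
    have : (l : ℝ) + 1 ≤ n := by exact_mod_cast hl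
    refine ⟨by positivity, ?_⟩
    rw [div_le_iff₀ (by positivity)]
    apply mul_le_mul_of_nonneg_left _ hpi.le
    linarith
  have h2 := Real.injOn_cos (hmem i hi) (hmem j hj) (by linarith)
  field_simp at h2
  have h3 : (i : ℝ) = j := by linarith
  exact_mod_cast h3

/-! ### The number of zeros -/

/-- The number `⌈m k / n⌉`. -/
def J (m n k : ℕ) : ℕ := (m * k + (n - 1)) / n

lemma J_pos (m n k : ℕ) (hm : 1 ≤ m) (hk : 1 ≤ k) (hn : 0 < n) : 1 ≤ J m n k := by
  unfold J
  rw [Nat.le_div_iff_mul_le hn]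
  have : 1 ≤ m * k := Nat.mul_pos hm hk
  omega

lemma J_lt (m n k j : ℕ) (hn : 0 < n) (hj : j < J m n k) : j * n < m * k := by
  unfold J at hj
  have : (j + 1) * n ≤ m * k + (n - 1) := by
    rw [← Nat.le_div_iff_mul_le hn]; exact hj
  rw [add_mul] at this
  omega

lemma J_add (m n k : ℕ) (hk : 1 ≤ k) (hkn : k < n) :
    J m n k + J m n (n - k) + (if n ∣ m * k then 1 else 0) = m + 1 := by
  have hn : 0 < n := by omega
  have hdm := Nat.div_add_mod (m * k) n
  set q := m * k / n with hq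
  set r := m * k % n with hr
  have hrn : r < n := Nat.mod_lt _ hn
  have hmk : m * (n - k) + m * k = n * m := by
    rw [← Nat.mul_add, Nat.sub_add_cancel hkn.le, mul_comm]
  have hqm : q ≤ m := by
    by_contra hcon
    push Not at hcon
    have h1 : n * (m + 1) ≤ n * q := Nat.mul_le_mul_left n hcon
    rw [Nat.mul_add] at h1
    omega
  obtain ⟨d, hd⟩ : ∃ d, m = q + d := ⟨m - q, by omega⟩
  have hnm : n * m = n * q + n * d := by rw [hd, Nat.mul_add]
  unfold J
  by_cases h0 : r = 0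
  · have hdvd : n ∣ m * k := Nat.dvd_of_mod_eq_zero (by rw [← hr]; exact h0)
    rw [if_pos hdvd]
    have h1 : (m * k + (n - 1)) / n = q := by
      rw [show m * k + (n - 1) = (n - 1) + n * q by omega, Nat.add_mul_div_left _ _ hn,
        Nat.div_eq_of_lt (by omega)]
      omega
    have h2 : (m * (n - k) + (n - 1)) / n = d := by
      rw [show m * (n - k) + (n - 1) = (n - 1) + n * d by omega, Nat.add_mul_div_left _ _ hn,
        Nat.div_eq_of_lt (by omega)]
      omega
    omega
  · have hdvd : ¬ n ∣ m * k := fun h => h0 (Nat.mod_eq_zero_of_dvd h)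
    rw [if_neg hdvd]
    have h1 : (m * k + (n - 1)) / n = q + 1 := by
      rw [show m * k + (n - 1) = (r - 1) + n * (q + 1) by rw [Nat.mul_add]; omega,
        Nat.add_mul_div_left _ _ hn, Nat.div_eq_of_lt (by omega)]
      omega
    have h2 : (m * (n - k) + (n - 1)) / n = d := by
      rw [show m * (n - k) + (n - 1) = (n - r - 1) + n * d by omega,
        Nat.add_mul_div_left _ _ hn, Nat.div_eq_of_lt (by omega)]
      omega
    omega

lemma card_dvd (m n : ℕ) (hm : 1 ≤ m) (hn : 0 < n) :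
    ∑ i ∈ Finset.range (n - 1), (if n ∣ m * (i + 1) then 1 else 0) + 1 ≤ Nat.gcd m n := by
  rw [← Finset.card_filter]
  set g := Nat.gcd m n with hg
  have hgpos : 0 < g := Nat.gcd_pos_of_pos_left _ hm
  obtain ⟨m', hm'⟩ := Nat.gcd_dvd_left m n
  obtain ⟨n', hn'⟩ := Nat.gcd_dvd_right m n
  rw [← hg] at hm' hn'
  have hcop : Nat.Coprime n' m' := by
    have h1 := Nat.coprime_div_gcd_div_gcd (m := m) (n := n) hgpos
    rw [← hg] at h1
    have h2 : m / g = m' := by rw [hm']; exact Nat.mul_div_cancel_left _ hgpos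
    have h3 : n / g = n' := by rw [hn']; exact Nat.mul_div_cancel_left _ hgpos
    rw [h2, h3] at h1
    exact h1.symm
  have hn'pos : 0 < n' := by
    rcases Nat.eq_zero_or_pos n' with h | h
    · rw [h] at hn'; omega
    · exact h
  have hsub : (Finset.range (n - 1)).filter (fun i => n ∣ m * (i + 1)) ⊆
      (Finset.range (n - 1)).filter (fun e => n' ∣ e + 1) := by
    intro i hi
    rw [Finset.mem_filter] at hi ⊢
    refine ⟨hi.1, ?_⟩
    have h1 := hi.2
    have h2 : n' ∣ m' * (i + 1) := by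
      apply Nat.dvd_of_mul_dvd_mul_left hgpos
      rw [← hn', ← mul_assoc, ← hm']
      exact h1
    exact hcop.dvd_of_dvd_mul_left h2
  have hcard := Finset.card_le_card hsub
  rw [Nat.card_multiples] at hcard
  have h5 : (n - 1) / n' < g := by
    rw [Nat.div_lt_iff_lt_mul hn'pos, ← hn']
    omega
  omega

lemma sum_J (m n : ℕ) (hm : 1 ≤ m) (hn : 0 < n) :
    (m + 1) * (n - 1) + 1 ≤ 2 * ∑ i ∈ Finset.range (n - 1), J m n (i + 1) + Nat.gcd m n := by
  have h1 : ∑ i ∈ Finset.range (n - 1), J m n (n - (i + 1)) =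
      ∑ i ∈ Finset.range (n - 1), J m n (i + 1) := by
    rw [← Finset.sum_range_reflect (fun i => J m n (i + 1)) (n - 1)]
    apply Finset.sum_congr rfl
    intro i hi
    rw [Finset.mem_range] at hi
    congr 1
    omega
  have h2 : ∑ i ∈ Finset.range (n - 1), (J m n (i + 1) + J m n (n - (i + 1)) +
      (if n ∣ m * (i + 1) then 1 else 0)) = (n - 1) * (m + 1) := by
    rw [Finset.sum_congr rfl (g := fun _ => m + 1)]
    · simp
    · intro i hi
      rw [Finset.mem_range] at hi
      exact J_add m n (i + 1) (by omega) (by omega)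
  rw [Finset.sum_add_distrib, Finset.sum_add_distrib, h1] at h2
  have h3 := card_dvd m n hm hn
  have h4 : (n - 1) * (m + 1) = (m + 1) * (n - 1) := mul_comm _ _
  omega


/-- The main count. -/
lemma exists_many_zeros (n m : ℕ) (hm : 1 ≤ m) (hmn : m < n) :
    ∃ (ε : ℝ) (F : Finset ℂ), 0 < ε ∧
      (∀ z ∈ F, (P n m ε).eval z + (starRingEnd ℂ) ((Q m).eval z) = 0) ∧
      F.card = n + 2 * ∑ i ∈ Finset.range (n - 1), J m n (i + 1) := by
  classical
  have hn : 0 < n := by omega
  have hnR : (0 : ℝ) < n := by exact_mod_cast hn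
  have hpi := Real.pi_pos
  -- test points
  have htest : ∀ k : ℕ, ∃ β : ℕ → ℝ, 1 ≤ k → k < n → (∀ j < J m n k, 0 < β j ∧
      0 < (-1 : ℝ) ^ j * S m (Real.pi * k / n) (β j)) ∧
      ∀ j, j + 1 < J m n k → β j < β (j + 1) := by
    intro k
    by_cases hk : 1 ≤ k ∧ k < n
    · obtain ⟨β, h1, h2⟩ := exists_test_points m n k (J m n k) hm hk.1 hk.2
        (fun j hj => J_lt m n k j hn hj)
      exact ⟨β, fun _ _ => ⟨h1, h2⟩⟩
    · exact ⟨fun _ => 0, fun h1 h2 => absurd ⟨h1, h2⟩ hk⟩
  choose β hβ using htest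
  -- the small parameter
  obtain ⟨ε, hε, hεβ⟩ : ∃ ε : ℝ, 0 < ε ∧ ∀ k ∈ Finset.Ico 1 n, ∀ j ∈ Finset.range (J m n k),
      ε * Real.cosh (n * β k j) < (-1 : ℝ) ^ j * S m (Real.pi * k / n) (β k j) := by
    have hev : ∀ᶠ ε : ℝ in nhdsWithin 0 (Set.Ioi 0), ∀ k ∈ Finset.Ico 1 n,
        ∀ j ∈ Finset.range (J m n k),
        ε * Real.cosh (n * β k j) < (-1 : ℝ) ^ j * S m (Real.pi * k / n) (β k j) := by
      rw [Filter.eventually_all_finset]
      intro k hk
      rw [Filter.eventually_all_finset]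
      intro j hj
      rw [Finset.mem_Ico] at hk
      rw [Finset.mem_range] at hj
      have h1 := ((hβ k hk.1 hk.2).1 j hj).2
      have h2 : Filter.Tendsto (fun ε : ℝ => ε * Real.cosh (n * β k j))
          (nhdsWithin 0 (Set.Ioi 0)) (nhds (0 * Real.cosh (n * β k j))) :=
        (Filter.Tendsto.mul_const _ Filter.tendsto_id).mono_left nhdsWithin_le_nhds
      rw [zero_mul] at h2
      exact h2.eventually (gt_mem_nhds h1)
    obtain ⟨ε, h1, h2⟩ := (hev.and self_mem_nhdsWithin).exists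
    exact ⟨ε, h2, h1⟩
  -- zeros on the branches
  have hbranch : ∀ k : ℕ, ∃ F : Finset ℝ, 1 ≤ k → k < n → F.card = 2 * J m n k ∧
      ∀ x ∈ F, x ≠ 0 ∧ S m (Real.pi * k / n) x + (-1) ^ k * (ε * Real.cosh (n * x)) = 0 := by
    intro k
    by_cases hk : 1 ≤ k ∧ k < n
    · obtain ⟨h1, h2⟩ := hβ k hk.1 hk.2
      obtain ⟨B, hB, hBV⟩ := exists_far m n hmn (Real.pi * k / n) ε hε (β k (J m n k - 1))
      obtain ⟨F, hF, hF0⟩ := count_zeros (S m (Real.pi * k / n)) (fun x => ε * Real.cosh (n * x))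
        (continuous_S m _) (by fun_prop) (S_neg m _)
        (fun b => by simp only [mul_neg, Real.cosh_neg])
        (fun b => mul_pos hε (Real.cosh_pos _)) (J m n k) (J_pos m n k hm hk.1 hn) (β k)
        (fun j hj => (h1 j hj).1) h2
        (fun j hj => hεβ k (Finset.mem_Ico.2 hk) j (Finset.mem_range.2 hj)) B hB hBV
        ((-1) ^ k) (neg_one_pow_eq_or ℝ k)
      exact ⟨F, fun _ _ => ⟨hF, hF0⟩⟩
    · exact ⟨∅, fun h1 h2 => absurd ⟨h1, h2⟩ hk⟩
  choose Z hZ using hbranch
  set a : ℕ → ℝ := fun k => Real.pi * k / n with ha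
  have ha0 : ∀ k, 1 ≤ k → 0 < a k := by
    intro k hk
    have : (0 : ℝ) < k := by exact_mod_cast hk
    simp only [ha]
    positivity
  have haπ : ∀ k, k < n → a k < Real.pi := by
    intro k hk
    have : (k : ℝ) < n := by exact_mod_cast hk
    simp only [ha]
    rw [div_lt_iff₀ hnR]
    exact mul_lt_mul_of_pos_left this hpi
  have hainj : ∀ k l, a k = a l → k = l := by
    intro k l h
    simp only [ha] at h
    have h1 : Real.pi * (k : ℝ) = Real.pi * l := by
      field_simp at h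
      rw [h]
    have h2 : (k : ℝ) = l := mul_left_cancel₀ hpi.ne' h1
    exact_mod_cast h2
  set F1 : Finset ℂ := (Finset.range n).image (xr n) with hF1
  set F2 : Finset ℂ := (Finset.range (n - 1)).biUnion
    (fun i => (Z (i + 1)).image (pt (a (i + 1)))) with hF2
  refine ⟨ε, F1 ∪ F2, hε, ?_, ?_⟩
  · intro z hz
    rcases Finset.mem_union.1 hz with hz | hz
    · obtain ⟨i, -, rfl⟩ := Finset.mem_image.1 hz
      exact eval_xr n m i hn ε
    · obtain ⟨i, hi, hz⟩ := Finset.mem_biUnion.1 hz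
      rw [Finset.mem_range] at hi
      obtain ⟨x, hx, rfl⟩ := Finset.mem_image.1 hz
      have h1 := ((hZ (i + 1) (by omega) (by omega)).2 x hx).2
      simp only [ha]
      rw [eval_pt n m (i + 1) hn ε x, h1]
      simp
  · have hc1 : F1.card = n := by
      rw [hF1, Finset.card_image_of_injOn, Finset.card_range]
      intro i hi j hj h
      simp only [Finset.coe_range, Set.mem_Iio] at hi hj
      exact xr_inj n i j hi hj h
    have hc2 : F2.card = 2 * ∑ i ∈ Finset.range (n - 1), J m n (i + 1) := by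
      rw [hF2, Finset.card_biUnion, Finset.mul_sum]
      · apply Finset.sum_congr rfl
        intro i hi
        rw [Finset.mem_range] at hi
        rw [Finset.card_image_of_injective, (hZ (i + 1) (by omega) (by omega)).1]
        intro b b' h
        exact (pt_inj (ha0 (i + 1) (by omega)) (haπ (i + 1) (by omega))
          (ha0 (i + 1) (by omega)) (haπ (i + 1) (by omega)) h).2
      · intro i hi j hj hij
        simp only [Finset.coe_range, Set.mem_Iio] at hi hj
        change Disjoint _ _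
        rw [Finset.disjoint_left]
        intro z hz hz'
        obtain ⟨x, -, hx⟩ := Finset.mem_image.1 hz
        obtain ⟨y, -, hy⟩ := Finset.mem_image.1 hz'
        have h1 := (pt_inj (ha0 (i + 1) (by omega)) (haπ (i + 1) (by omega))
          (ha0 (j + 1) (by omega)) (haπ (j + 1) (by omega)) (hx.trans hy.symm)).1
        have h2 := hainj _ _ h1
        omega
    rw [Finset.card_union_of_disjoint, hc1, hc2]
    rw [Finset.disjoint_left]
    intro z hz hz'
    obtain ⟨i, -, rfl⟩ := Finset.mem_image.1 hz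
    obtain ⟨j, hj, hz'⟩ := Finset.mem_biUnion.1 hz'
    rw [Finset.mem_range] at hj
    obtain ⟨x, hx, hxz⟩ := Finset.mem_image.1 hz'
    have h1 := ((hZ (j + 1) (by omega) (by omega)).2 x hx).1
    have h2 := congrArg Complex.im hxz
    rw [pt_im] at h2
    unfold xr at h2
    rw [Complex.ofReal_im] at h2
    have h3 : 0 < Real.sin (a (j + 1)) :=
      Real.sin_pos_of_pos_of_lt_pi (ha0 (j + 1) (by omega)) (haπ (j + 1) (by omega))
    rcases mul_eq_zero.1 h2 with h4 | h4
    · exact h3.ne' h4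
    · exact h1 (Real.sinh_eq_zero.1 h4)

/-- The lower bound for the number of zeros, with witnesses. -/
theorem lower_bound (n m : ℕ) (hm : 1 ≤ m) (hmn : m < n) :
    ∃ p q : ℂ[X], p.natDegree = n ∧ q.natDegree = m ∧
      ((m * n + 2 * n - m - Nat.gcd m n : ℕ) : ℕ∞) ≤ zeroCount p q := by
  obtain ⟨ε, F, hε, hF, hcard⟩ := exists_many_zeros n m hm hmn
  refine ⟨P n m ε, Q m, natDegree_P n m hmn ε hε, natDegree_Q m, ?_⟩
  have hsub : (F : Set ℂ) ⊆
      {z : ℂ | (P n m ε).eval z + (starRingEnd ℂ) ((Q m).eval z) = 0} := fun z hz => hF z hz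
  have h1 := Set.encard_le_encard hsub
  rw [Set.encard_coe_eq_coe_finsetCard, hcard] at h1
  refine le_trans ?_ h1
  have h2 := sum_J m n hm (by omega)
  have h3 : (m + 1) * (n - 1) + (m + 1) = m * n + n := by
    have : n = (n - 1) + 1 := by omega
    calc (m + 1) * (n - 1) + (m + 1) = (m + 1) * ((n - 1) + 1) := by ring
      _ = (m + 1) * n := by rw [← this]
      _ = m * n + n := by ring
  have h4 : m * n + 2 * n - m - Nat.gcd m n ≤
      n + 2 * ∑ i ∈ Finset.range (n - 1), J m n (i + 1) := by omega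
  exact_mod_cast h4


/-- The lower bound for `N(n, m)`. -/
theorem N_lower_bound (n m : ℕ) (hm : 1 ≤ m) (hmn : m < n) :
    ((m * n + 2 * n - m - Nat.gcd m n : ℕ) : ℕ∞) ≤ N n m := by
  obtain ⟨p, q, hp, hq, h⟩ := lower_bound n m hm hmn
  refine h.trans ?_
  unfold N
  exact le_iSup_of_le p (le_iSup_of_le q (le_iSup_of_le hp (le_iSup_of_le hq le_rfl)))

/-- Wilmshurst's value is smaller than the lower bound, except for `(n, m) = (4, 2)`. -/
lemma wilmshurst_lt (n m : ℕ) (hm : 1 < m) (hmn : m + 1 < n) (h42 : ¬ (n = 4 ∧ m = 2)) :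
    m * (m - 1) + 3 * n - 2 < m * n + 2 * n - m - Nat.gcd m n := by
  obtain ⟨d, rfl⟩ : ∃ d, n = m + d := ⟨n - m, by omega⟩
  obtain ⟨u, rfl⟩ : ∃ u, m = u + 2 := ⟨m - 2, by omega⟩
  obtain ⟨v, rfl⟩ : ∃ v, d = v + 2 := ⟨d - 2, by omega⟩
  have hg1 : Nat.gcd (u + 2) (u + 2 + (v + 2)) ≤ u + 2 := Nat.gcd_le_left _ (by omega)
  have hg2 : Nat.gcd (u + 2) (u + 2 + (v + 2)) ≤ v + 2 := by
    have : Nat.gcd (u + 2) (u + 2 + (v + 2)) ∣ v + 2 := by
      have h1 := Nat.gcd_dvd_left (u + 2) (u + 2 + (v + 2))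
      have h2 := Nat.gcd_dvd_right (u + 2) (u + 2 + (v + 2))
      exact (Nat.dvd_add_right h1).1 h2
    exact Nat.le_of_dvd (by omega) this
  have hg3 : u = 0 → v ≠ 0 → Nat.gcd (u + 2) (u + 2 + (v + 2)) ≤ 2 := by
    intro h _; subst h; simpa using hg1
  set g := Nat.gcd (u + 2) (u + 2 + (v + 2)) with hg
  have e1 : (u + 2) * (u + 2 - 1) = u * u + 3 * u + 2 := by
    rw [show u + 2 - 1 = u + 1 by omega]; ring
  have e2 : (u + 2) * (u + 2 + (v + 2)) = u * u + u * v + 6 * u + 2 * v + 8 := by ring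
  rw [e1, e2]
  rcases Nat.eq_zero_or_pos u with hu | hu
  · subst hu
    have hv : v ≠ 0 := by
      rintro rfl
      exact h42 ⟨rfl, rfl⟩
    simp only [Nat.zero_mul, Nat.mul_zero]
    omega
  · have : v ≤ u * v := Nat.le_mul_of_pos_left v hu
    omega

/-- **Main result.** For all `n > m ≥ 1` one has `N(n, m) ≥ m n + 2 n - m - gcd(m, n)`.
In particular Wilmshurst's upper bound `m (m - 1) + 3 n - 2` is wrong for all `1 < m < n - 1`
except possibly for `(n, m) = (4, 2)`. -/
theorem result :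
    (∀ n m : ℕ, 1 ≤ m → m < n → ((m * n + 2 * n - m - Nat.gcd m n : ℕ) : ℕ∞) ≤ N n m) ∧
    (∀ n m : ℕ, 1 < m → m + 1 < n → ¬ (n = 4 ∧ m = 2) →
      ((m * (m - 1) + 3 * n - 2 : ℕ) : ℕ∞) < N n m) := by
  refine ⟨N_lower_bound, ?_⟩
  intro n m hm hmn h42
  have h1 := wilmshurst_lt n m hm hmn h42
  have h2 := N_lower_bound n m (by omega) (by omega)
  exact lt_of_lt_of_le (by exact_mod_cast h1) h2

end Pool.Agent.Results.MP_cd3d06_an.ChebyshevBound
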